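import Pool.Agent.H724.WE.SFStm

set_option autoImplicit false

/-! Subtask WE-6 for helper724: `S_brk` and `S_mono`. -/

namespace H148.WE

open Finset H724.WE
open scoped Classical

/-- **AB7.** -/
theorem brk : H724.WE.S_brk := by
  intro V ι _ _ G
  let A : Finset (ι × ℕ) := G.Brk.filter (fun e => (e.1, e.2 + 1) ∈ G.Mk)
  let B : Finset (ι × ℕ) := G.Brk.filter (fun e => ¬ (e.1, e.2 + 1) ∈ G.Mk)
  have hA : A.card ≤ G.Mk.card := by
    refine card_le_card_of_injOn (fun e => (e.1, e.2 + 1)) ?_ ?_
    · intro e he
      exact mem_coe.mpr (mem_filter.mp (mem_coe.mp he)).2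
    · intro e _ f _ h
      simp only [Prod.mk.injEq, Nat.add_right_cancel_iff] at h
      exact Prod.ext h.1 h.2
  have hB : B.card ≤ G.SC.card := by
    refine le_trans (card_le_card (t := G.SC.image ed) ?_) card_image_le
    intro e he
    obtain ⟨he1, he2⟩ := mem_filter.mp he
    unfold SF.Brk at he1
    rw [mem_filter, mem_product, mem_Ico] at he1
    obtain ⟨⟨_, hr, hl⟩, hl1, h3⟩ := he1
    have h4 := h3.resolve_left he2
    have hv1 : ∀ b : Bool, G.val (e.1, e.2, b) := fun b => ⟨hr, hl⟩
    have hv2 : ∀ b : Bool, G.val (e.1, e.2 + 1, b) := fun b => ⟨le_trans hr (Nat.le_succ _), hl1⟩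
    have key : ∃ b : Bool, ¬ (G.light (e.1, e.2, b) ↔ G.light (e.1, e.2 + 1, b)) := by
      by_contra hcon
      push Not at hcon
      apply h4
      unfold SF.core
      have h5 := hcon false
      have h6 := hcon true
      simp only [rev, Bool.not_false]
      rw [h5, h6]
      constructor
      · rintro ⟨_, h7, h8⟩
        exact ⟨hv2 false, h7, h8⟩
      · rintro ⟨_, h7, h8⟩
        exact ⟨hv1 false, h7, h8⟩
    obtain ⟨b, hb⟩ := key
    rw [mem_image]
    refine ⟨(e.1, e.2, b), ?_, rfl⟩
    unfold SF.SC
    rw [mem_filter, G.mem_darts]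
    exact ⟨hv1 b, hv2 b, hb⟩
  have hAB : G.Brk.card = A.card + B.card := (card_filter_add_card_filter_not _).symm
  omega

/-- **AB9.** -/
theorem mono : H724.WE.S_mono := by
  intro w x s hx hs
  have halt : ∀ j, j + 1 < w → s (j + 1) = !(s j) := by
    intro j hj
    by_contra hne
    have : s j = s (j + 1) := by
      cases h1 : s j <;> cases h2 : s (j + 1) <;> simp_all
    obtain ⟨k, h1, h2, _⟩ := hs j (j + 1) (Nat.lt_succ_self _) hj this
    omega
  have hbet : ∀ j, j + 2 < w → (x j < x (j + 1) ∧ x (j + 1) < x (j + 2)) ∨
      (x (j + 2) < x (j + 1) ∧ x (j + 1) < x j) := by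
    intro j hj
    have h1 := halt j (by omega)
    have h2 := halt (j + 1) (by omega)
    have h3 : s j = s (j + 2) := by
      rw [h2, h1, Bool.not_not]
    obtain ⟨k, hk1, hk2, hk3, hk4⟩ := hs j (j + 2) (by omega) hj h3
    have : k = j + 1 := by omega
    subst this
    omega
  refine ⟨halt, ?_⟩
  by_cases hw : w ≤ 1
  · left
    intro j j' h1 h2
    omega
  push Not at hw
  rcases lt_or_gt_of_ne (hx 0 1 (by omega) hw) with h01 | h01
  · left
    have hstep : ∀ j, j + 1 < w → x j < x (j + 1) := by
      intro j
      induction j with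
      | zero => intro _; exact h01
      | succ j ih =>
        intro hj
        have h1 := ih (by omega)
        rcases hbet j (by omega) with h2 | h2
        · exact h2.2
        · omega
    intro j j' h1
    induction j', h1 using Nat.le_induction with
    | base => intro h2; exact hstep j h2
    | succ m _ ih =>
      intro h2
      exact (ih (by omega)).trans (hstep m h2)
  · right
    have hstep : ∀ j, j + 1 < w → x (j + 1) < x j := by
      intro j
      induction j with
      | zero => intro _; exact h01
      | succ j ih =>
        intro hj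
        have h1 := ih (by omega)
        rcases hbet j (by omega) with h2 | h2
        · omega
        · exact h2.1
    intro j j' h1
    induction j', h1 using Nat.le_induction with
    | base => intro h2; exact hstep j h2
    | succ m _ ih =>
      intro h2
      exact (hstep m h2).trans (ih (by omega))

end H148.WE
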