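import Pool.Agent.H724.WE.WStm

/-! Project WE (helper724), jobs WD9 (`S_dBd`) and WD10 (`S_dSize`), by helper79. -/

namespace H79.WEb

open Finset H724.WE
open scoped Classical

variable {α : Type} (X : Dat α)

theorem cls_eq {q q' : ℕ} (h : q ≤ X.L) (h' : q' ≤ X.L) : X.cls q = X.cls q' ↔ X.eqv q q' := by
  have e1 : (⟨min q X.L, Nat.lt_succ_of_le (Nat.min_le_right _ _)⟩ : Fin (X.L + 1))
      = ⟨q, Nat.lt_succ_of_le h⟩ := Fin.ext (Nat.min_eq_left h)
  have e2 : (⟨min q' X.L, Nat.lt_succ_of_le (Nat.min_le_right _ _)⟩ : Fin (X.L + 1))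
      = ⟨q', Nat.lt_succ_of_le h'⟩ := Fin.ext (Nat.min_eq_left h')
  unfold Dat.cls
  rw [e1, e2]
  exact Quotient.eq (r := X.stp)

theorem rep_le (v : X.V) : X.rep v ≤ X.L := Nat.lt_succ_iff.1 (Quotient.out v).2

theorem cls_rep (v : X.V) : X.cls (X.rep v) = v := by
  have e1 : (⟨min (X.rep v) X.L, Nat.lt_succ_of_le (Nat.min_le_right _ _)⟩ : Fin (X.L + 1))
      = Quotient.out v := Fin.ext (Nat.min_eq_left (rep_le X v))
  unfold Dat.cls
  rw [e1]
  exact Quotient.out_eq v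

theorem cp_zero (s : Bool) (i : Fin X.n) : X.cp s i 0 ∈ X.S := by
  unfold Dat.cp
  cases s
  · simpa using X.a_mem i
  · simpa using X.b_mem i

theorem cp_m (s : Bool) (i : Fin X.n) : X.cp s i (X.m i) ∈ X.S := by
  unfold Dat.cp
  cases s
  · simpa using X.am_mem i
  · simpa using X.bm_mem i

theorem cp_add (s : Bool) (i : Fin X.n) (o k : ℕ) : X.cp s i (o + k) = X.cp s i o + k := by
  unfold Dat.cp
  cases s <;> simp [add_assoc]

theorem cp_le (s : Bool) (i : Fin X.n) {o : ℕ} (ho : o ≤ X.m i) : X.cp s i o ≤ X.L := by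
  have h := X.S_le _ (cp_m X s i)
  obtain ⟨k, hk⟩ := Nat.exists_eq_add_of_le ho
  rw [hk, cp_add] at h
  omega

theorem mem_Z0 {q : ℕ} : q ∈ X.Z0 ↔ q ≤ X.L ∧ (q ∈ X.S ∨
    (∃ i s o, X.m i < X.r ∧ o ≤ X.m i ∧ q = X.cp s i o) ∨
    (∃ i s o, X.long i ∧ (o ≤ X.r ∨ o = X.l - 1 ∨ o = X.l) ∧ q = X.cp s i o)) := by
  unfold Dat.Z0
  rw [Finset.mem_filter, Finset.mem_range, Nat.lt_succ_iff]

theorem S_mem_Z0 {q : ℕ} (h : q ∈ X.S) : q ∈ X.Z0 := (mem_Z0 X).2 ⟨X.S_le q h, Or.inl h⟩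

theorem short_mem_Z0 {i : Fin X.n} {s : Bool} {o : ℕ} (h : X.m i < X.r) (ho : o ≤ X.m i) :
    X.cp s i o ∈ X.Z0 := (mem_Z0 X).2 ⟨cp_le X s i ho, Or.inr (Or.inl ⟨i, s, o, h, ho, rfl⟩)⟩

theorem long_mem_Z0 {i : Fin X.n} {s : Bool} {o : ℕ} (h : X.long i)
    (ho : o ≤ X.r ∨ o = X.l - 1 ∨ o = X.l) : X.cp s i o ∈ X.Z0 := by
  have h1 := X.r_lt
  have h2 : 2 * X.l ≤ X.m i := h
  refine (mem_Z0 X).2 ⟨cp_le X s i ?_, Or.inr (Or.inr ⟨i, s, o, h, ho, rfl⟩)⟩
  rcases ho with ho | ho | ho <;> omega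

theorem long_of {i : Fin X.n} (h : X.l ≤ X.m i) : X.long i := by
  have h1 := X.r_lt
  rcases X.m_cases i with h2 | h2
  · omega
  · exact h2

theorem sa_cp (i : Fin X.n) (o : ℕ) : sa X.a (i, o) = X.cp false i o := rfl

theorem sb_cp (i : Fin X.n) (o : ℕ) : sa X.b (i, o) = X.cp true i o := rfl

/-- the left ends -/
theorem left_ends {q : ℕ} (h : q ∈ X.Z0) (h1 : 1 ≤ q) (h2 : q - 1 ∉ X.Z0) :
    q ∈ X.S ∪ (univ : Finset (Bool × Fin X.n)).image (fun e => X.cp e.1 e.2 (X.l - 1)) := by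
  have hr := X.r_lt
  rw [Finset.mem_union, Finset.mem_image]
  obtain ⟨hL, h3 | ⟨i, s, o, hi, ho, rfl⟩ | ⟨i, s, o, hi, ho, rfl⟩⟩ := (mem_Z0 X).1 h
  · exact Or.inl h3
  · rcases Nat.eq_zero_or_pos o with rfl | ho0
    · exact Or.inl (cp_zero X s i)
    · exfalso
      apply h2
      obtain ⟨k, rfl⟩ : ∃ k, o = k + 1 := ⟨o - 1, by omega⟩
      rw [cp_add, Nat.add_sub_cancel]
      exact short_mem_Z0 X hi (by omega)
  · rcases Nat.eq_zero_or_pos o with rfl | ho0
    · exact Or.inl (cp_zero X s i)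
    · obtain ⟨k, rfl⟩ : ∃ k, o = k + 1 := ⟨o - 1, by omega⟩
      rcases ho with ho | ho | ho
      · exfalso
        apply h2
        rw [cp_add, Nat.add_sub_cancel]
        exact long_mem_Z0 X hi (Or.inl (by omega))
      · exact Or.inr ⟨(s, i), Finset.mem_univ _, by rw [ho]⟩
      · exfalso
        apply h2
        rw [cp_add, Nat.add_sub_cancel]
        exact long_mem_Z0 X hi (Or.inr (Or.inl (by omega)))

/-- the right ends -/
theorem right_ends {q : ℕ} (h : q ∈ X.Z0) (h2 : q + 1 ∉ X.Z0) :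
    q ∈ (X.S ∪ (univ : Finset (Bool × Fin X.n)).image (fun e => X.cp e.1 e.2 X.r)) ∪
      (univ : Finset (Bool × Fin X.n)).image (fun e => X.cp e.1 e.2 X.l) := by
  have hr := X.r_lt
  rw [Finset.mem_union, Finset.mem_union, Finset.mem_image, Finset.mem_image]
  obtain ⟨hL, h3 | ⟨i, s, o, hi, ho, rfl⟩ | ⟨i, s, o, hi, ho, rfl⟩⟩ := (mem_Z0 X).1 h
  · exact Or.inl (Or.inl h3)
  · rcases Nat.lt_or_ge o (X.m i) with ho1 | ho1
    · exfalso
      apply h2
      rw [← cp_add]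
      exact short_mem_Z0 X hi (by omega)
    · obtain rfl : o = X.m i := by omega
      exact Or.inl (Or.inl (cp_m X s i))
  · rcases ho with ho | ho | ho
    · rcases Nat.lt_or_ge o X.r with ho1 | ho1
      · exfalso
        apply h2
        rw [← cp_add]
        exact long_mem_Z0 X hi (Or.inl (by omega))
      · obtain rfl : o = X.r := by omega
        exact Or.inl (Or.inr ⟨(s, i), Finset.mem_univ _, rfl⟩)
    · exfalso
      apply h2
      rw [← cp_add]
      exact long_mem_Z0 X hi (Or.inr (Or.inr (by omega)))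
    · subst ho
      exact Or.inr ⟨(s, i), Finset.mem_univ _, rfl⟩

theorem card_ends (f : Bool × Fin X.n → ℕ) :
    ((univ : Finset (Bool × Fin X.n)).image f).card ≤ 2 * X.n := by
  refine Finset.card_image_le.trans (le_of_eq ?_)
  simp

theorem up_mem (hS : S_dShift) {v : X.V} (hv : v ∉ X.Z) (hu : X.up v ∈ X.Z) :
    ∃ q ∈ X.Z0, 1 ≤ q ∧ q - 1 ∉ X.Z0 ∧ X.cls (q - 1) = v := by
  have hr := X.r_lt
  set p := X.rep v with hp
  have hpL : p ≤ X.L := rep_le X v
  have hpv : X.cls p = v := cls_rep X v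
  obtain ⟨h1, h2, -⟩ := hS α X p p hpL (by rw [hpv]; exact hv) (Conn.refl _)
  have hu' : X.cls (p + 1) ∈ X.Z := hu
  obtain ⟨q, hq, hqp⟩ := Finset.mem_image.1 hu'
  have hqL : q ≤ X.L := ((mem_Z0 X).1 hq).1
  have hpq : X.eqv (p + 1) q := (cls_eq X (by omega) hqL).1 hqp.symm
  have key : q ∈ {x : ℕ | (1 ≤ x ∧ X.eqv p (x - 1)) ∨ ∃ q' ∈ X.Z0, 1 ≤ q' ∧ X.eqv p (q' - 1)} := by
    refine Conn.mem_of_closed (S := X.El) ?_ ?_ hpq
    · exact Or.inl ⟨by omega, by rw [Nat.add_sub_cancel]; exact Conn.refl _⟩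
    · rintro ⟨i, o⟩ ⟨ho1, ho2⟩
      change X.l ≤ o at ho1
      change o ≤ X.m i at ho2
      have hlong : X.long i := long_of X (ho1.trans ho2)
      rw [sa_cp, sb_cp]
      obtain ⟨k, rfl⟩ : ∃ k, o = k + 1 := ⟨o - 1, by omega⟩
      have aux : ∀ s t : Bool, (X.l ≤ k → X.eqv (X.cp s i k) (X.cp t i k)) →
          X.cp s i (k + 1) ∈ {x : ℕ | (1 ≤ x ∧ X.eqv p (x - 1)) ∨
            ∃ q' ∈ X.Z0, 1 ≤ q' ∧ X.eqv p (q' - 1)} →
          X.cp t i (k + 1) ∈ {x : ℕ | (1 ≤ x ∧ X.eqv p (x - 1)) ∨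
            ∃ q' ∈ X.Z0, 1 ≤ q' ∧ X.eqv p (q' - 1)} := by
        rintro s t hst (⟨h3, h4⟩ | h3)
        · rw [cp_add, Nat.add_sub_cancel] at h4
          by_cases hk : X.l ≤ k
          · refine Or.inl ⟨by rw [cp_add]; omega, ?_⟩
            rw [cp_add, Nat.add_sub_cancel]
            exact h4.trans (hst hk)
          · refine Or.inr ⟨X.cp s i (k + 1), ?_, h3, ?_⟩
            · exact long_mem_Z0 X hlong (Or.inr (Or.inr (by omega)))
            · rw [cp_add, Nat.add_sub_cancel]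
              exact h4
        · exact Or.inr h3
      have hedge : X.l ≤ k → X.eqv (X.cp false i k) (X.cp true i k) := fun hk =>
        Conn.edge (e := (i, k)) ⟨hk, by change k ≤ X.m i; omega⟩
      exact ⟨aux false true hedge, aux true false fun hk => (hedge hk).symm⟩
  have key2 : ∃ q' ∈ X.Z0, 1 ≤ q' ∧ X.eqv p (q' - 1) := by
    rcases key with h | h
    · exact ⟨q, hq, h.1, h.2⟩
    · exact h
  obtain ⟨q', hq', h3, h4⟩ := key2
  have hq'L : q' ≤ X.L := ((mem_Z0 X).1 hq').1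
  have h5 : X.cls (q' - 1) = v := by
    rw [← hpv]
    exact ((cls_eq X hpL (by omega)).2 h4).symm
  refine ⟨q', hq', h3, fun h6 => hv ?_, h5⟩
  rw [← h5]
  exact Finset.mem_image_of_mem _ h6

theorem dn_mem (hS : S_dShift) {v : X.V} (hv : v ∉ X.Z) (hu : X.dn v ∈ X.Z) :
    ∃ q ∈ X.Z0, q + 1 ∉ X.Z0 ∧ X.cls (q + 1) = v := by
  have hr := X.r_lt
  set p := X.rep v with hp
  have hpL : p ≤ X.L := rep_le X v
  have hpv : X.cls p = v := cls_rep X v
  have hpZ : X.cls p ∉ X.Z := by rw [hpv]; exact hv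
  obtain ⟨h1, h2, -⟩ := hS α X p p hpL hpZ (Conn.refl _)
  have hu' : X.cls (p - 1) ∈ X.Z := hu
  obtain ⟨q, hq, hqp⟩ := Finset.mem_image.1 hu'
  have hqL : q ≤ X.L := ((mem_Z0 X).1 hq).1
  have hpq : X.eqv (p - 1) q := (cls_eq X (by omega) hqL).1 hqp.symm
  have key : q ∈ {x : ℕ | X.eqv p (x + 1) ∨ ∃ q' ∈ X.Z0, X.eqv p (q' + 1)} := by
    refine Conn.mem_of_closed (S := X.El) ?_ ?_ hpq
    · refine Or.inl ?_
      rw [Nat.sub_add_cancel h1]
      exact Conn.refl _
    · rintro ⟨i, o⟩ ⟨ho1, ho2⟩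
      change X.l ≤ o at ho1
      change o ≤ X.m i at ho2
      rw [sa_cp, sb_cp]
      have aux : ∀ s t : Bool, (o + 1 ≤ X.m i → X.eqv (X.cp s i (o + 1)) (X.cp t i (o + 1))) →
          X.cp s i o ∈ {x : ℕ | X.eqv p (x + 1) ∨ ∃ q' ∈ X.Z0, X.eqv p (q' + 1)} →
          X.cp t i o ∈ {x : ℕ | X.eqv p (x + 1) ∨ ∃ q' ∈ X.Z0, X.eqv p (q' + 1)} := by
        rintro s t hst (h4 | h3)
        · by_cases hk : o + 1 ≤ X.m i
          · refine Or.inl ?_
            rw [← cp_add] at h4 ⊢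
            exact h4.trans (hst hk)
          · obtain rfl : o = X.m i := by omega
            exact Or.inr ⟨X.cp s i (X.m i), S_mem_Z0 X (cp_m X s i), h4⟩
        · exact Or.inr h3
      have hedge : o + 1 ≤ X.m i → X.eqv (X.cp false i (o + 1)) (X.cp true i (o + 1)) := fun hk =>
        Conn.edge (e := (i, o + 1)) ⟨by change X.l ≤ o + 1; omega, hk⟩
      exact ⟨aux false true hedge, aux true false fun hk => (hedge hk).symm⟩
  have key2 : ∃ q' ∈ X.Z0, X.eqv p (q' + 1) := by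
    rcases key with h | h
    · exact ⟨q, hq, h⟩
    · exact h
  obtain ⟨q', hq', h4⟩ := key2
  have hq'L : q' + 1 ≤ X.L := (hS α X p (q' + 1) hpL hpZ h4).2.2.1
  have h5 : X.cls (q' + 1) = v := by
    rw [← hpv]
    exact ((cls_eq X hpL hq'L).2 h4).symm
  refine ⟨q', hq', fun h6 => hv ?_, h5⟩
  rw [← h5]
  exact Finset.mem_image_of_mem _ h6

/-- **WD9** -/
theorem dBd : H724.WE.S_dBd := by
  intro hS α X
  constructor
  · have h1 : univ.filter (fun v => v ∉ X.Z ∧ X.up v ∈ X.Z) ⊆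
        (X.S ∪ (univ : Finset (Bool × Fin X.n)).image
          (fun e => X.cp e.1 e.2 (X.l - 1))).image (fun q => X.cls (q - 1)) := by
      intro v hv
      obtain ⟨-, hv1, hv2⟩ := Finset.mem_filter.1 hv
      obtain ⟨q, hq, hq1, hq2, hq3⟩ := up_mem X hS hv1 hv2
      exact Finset.mem_image.2 ⟨q, left_ends X hq hq1 hq2, hq3⟩
    calc _ ≤ _ := Finset.card_le_card h1
      _ ≤ _ := Finset.card_image_le
      _ ≤ X.S.card + 2 * X.n :=
        (Finset.card_union_le _ _).trans (Nat.add_le_add_left (card_ends X _) _)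
      _ ≤ _ := by omega
  · have h1 : univ.filter (fun v => v ∉ X.Z ∧ X.dn v ∈ X.Z) ⊆
        ((X.S ∪ (univ : Finset (Bool × Fin X.n)).image (fun e => X.cp e.1 e.2 X.r)) ∪
          (univ : Finset (Bool × Fin X.n)).image (fun e => X.cp e.1 e.2 X.l)).image
          (fun q => X.cls (q + 1)) := by
      intro v hv
      obtain ⟨-, hv1, hv2⟩ := Finset.mem_filter.1 hv
      obtain ⟨q, hq, hq2, hq3⟩ := dn_mem X hS hv1 hv2
      exact Finset.mem_image.2 ⟨q, right_ends X hq hq2, hq3⟩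
    calc _ ≤ _ := Finset.card_le_card h1
      _ ≤ _ := Finset.card_image_le
      _ ≤ (X.S.card + 2 * X.n) + 2 * X.n :=
        (Finset.card_union_le _ _).trans (Nat.add_le_add ((Finset.card_union_le _ _).trans
          (Nat.add_le_add_left (card_ends X _) _)) (card_ends X _))
      _ ≤ _ := by omega

/-- **WD10** -/
theorem dSize : H724.WE.S_dSize := by
  intro α X
  have hr := X.r_lt
  have hl := X.l_le
  constructor
  · have hinj : Function.Injective (fun q : Fin X.l => X.cls q.1) := by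
      intro q q' h
      have h1 : X.eqv q.1 q'.1 := (cls_eq X (by omega) (by omega)).1 h
      have h2 : q'.1 ∈ ({q.1} : Set ℕ) := by
        refine Conn.mem_of_closed (S := X.El) (Set.mem_singleton _) ?_ h1
        rintro ⟨i, o⟩ ⟨ho1, ho2⟩
        change X.l ≤ o at ho1
        have hq := q.2
        constructor
        · intro h3
          have : X.a i + o = q.1 := h3
          omega
        · intro h3
          have : X.b i + o = q.1 := h3
          omega
      exact Fin.ext (Set.mem_singleton_iff.1 h2).symm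
    simpa using Fintype.card_le_of_injective _ hinj
  · have h1 : X.Z0 ⊆ (X.S ∪ ((univ : Finset (Bool × Fin X.n)) ×ˢ Finset.range X.r).image
        (fun e => X.cp e.1.1 e.1.2 e.2)) ∪
        ((univ : Finset (Bool × Fin X.n)) ×ˢ (Finset.range (X.r + 1) ∪ {X.l - 1, X.l})).image
          (fun e => X.cp e.1.1 e.1.2 e.2) := by
      intro q hq
      rw [Finset.mem_union, Finset.mem_union, Finset.mem_image, Finset.mem_image]
      obtain ⟨hL, h3 | ⟨i, s, o, hi, ho, rfl⟩ | ⟨i, s, o, hi, ho, rfl⟩⟩ := (mem_Z0 X).1 hq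
      · exact Or.inl (Or.inl h3)
      · exact Or.inl (Or.inr ⟨((s, i), o), Finset.mem_product.2 ⟨Finset.mem_univ _,
          Finset.mem_range.2 (by omega)⟩, rfl⟩)
      · refine Or.inr ⟨((s, i), o), Finset.mem_product.2 ⟨Finset.mem_univ _, ?_⟩, rfl⟩
        rw [Finset.mem_union, Finset.mem_range, Finset.mem_insert, Finset.mem_singleton]
        rcases ho with ho | ho | ho
        · exact Or.inl (by omega)
        · exact Or.inr (Or.inl ho)
        · exact Or.inr (Or.inr ho)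
    have h2 : (Finset.range (X.r + 1) ∪ {X.l - 1, X.l} : Finset ℕ).card ≤ X.r + 3 := by
      refine (Finset.card_union_le _ _).trans ?_
      rw [Finset.card_range]
      have := Finset.card_le_two (a := X.l - 1) (b := X.l)
      omega
    calc X.Z.card ≤ X.Z0.card := Finset.card_image_le
      _ ≤ _ := Finset.card_le_card h1
      _ ≤ _ := Finset.card_union_le _ _
      _ ≤ (X.S.card + 2 * X.n * X.r) + 2 * X.n * (X.r + 3) := by
        refine Nat.add_le_add ((Finset.card_union_le _ _).trans (Nat.add_le_add_left ?_ _)) ?_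
        · refine Finset.card_image_le.trans (le_of_eq ?_)
          rw [Finset.card_product, Finset.card_range]
          simp
        · refine Finset.card_image_le.trans ?_
          rw [Finset.card_product]
          have : (univ : Finset (Bool × Fin X.n)).card = 2 * X.n := by simp
          rw [this]
          exact Nat.mul_le_mul_left _ h2

end H79.WEb
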