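import Pool.Agent.H724.WE.WStm

/-!
# Project WE: the quotient graph is a forest (WD4)
-/

namespace H724.WE.DForest

open Finset
open scoped Classical

variable {α : Type} (X : Dat α)

/-- the kept edges without one edge -/
def TT (i : Fin X.n) (o : ℕ) : Set (Fin X.n × ℕ) :=
  {e | X.c e.1 ≤ e.2 ∧ e.2 ≤ X.m e.1} \ {(i, o)}

theorem conn_of_El {i : Fin X.n} {o : ℕ} (ho : o < X.l) (e : Fin X.n × ℕ) (he : e ∈ X.El) :
    Conn (sa X.a) (sa X.b) (TT X i o) (sa X.a e) (sa X.b e) := by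
  obtain ⟨j, p⟩ := e
  obtain ⟨h1, h2⟩ := he
  simp only at h1 h2
  by_cases hc : X.c j ≤ p
  · refine Conn.edge (e := (j, p)) ⟨⟨hc, h2⟩, ?_⟩
    intro h
    have h3 : (j, p) = (i, o) := h
    have h4 : p = o := congrArg Prod.snd h3
    omega
  · refine Conn.mono ?_ (X.red j p (not_le.1 hc) h2)
    rintro ⟨j', p'⟩ ⟨h3, h4, h5⟩
    simp only at h3 h4 h5
    refine ⟨⟨h3, h4⟩, ?_⟩
    intro h
    have h6 : (j', p') = (i, o) := h
    have h7 : p' = o := congrArg Prod.snd h6
    omega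

theorem conn_of_eqv {i : Fin X.n} {o : ℕ} (ho : o < X.l) {x y : ℕ} (h : X.eqv x y) :
    Conn (sa X.a) (sa X.b) (TT X i o) x y :=
  Conn.of_edges (fun e he => conn_of_El X ho e he) h

theorem rep_cls {q : ℕ} (hq : q ≤ X.L) : X.eqv (X.rep (X.cls q)) q := by
  have h2 : X.eqv (X.rep (X.cls q)) (min q X.L) :=
    Quotient.exact (s := X.stp) (Quotient.out_eq (X.cls q))
  rwa [Nat.min_eq_left hq] at h2

theorem le_L (s : Bool) (j : Fin X.n) {p : ℕ} (hp : p ≤ X.m j) : X.cp s j p ≤ X.L := by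
  have h1 := X.S_le _ (X.am_mem j)
  have h2 := X.S_le _ (X.bm_mem j)
  unfold Dat.cp
  cases s
  · simp only [Bool.false_eq_true, if_false]
    omega
  · simp only [if_true]
    omega

theorem dForest : S_dForest := by
  intro α X i o hro hol hcon
  have hti := i.2
  have hmi : o ≤ X.m i.1 := by
    have := hti.1
    omega
  have key : ∀ (s : Bool) (j : X.ι) (p : ℕ), p < X.l → (
      Conn (sa X.a) (sa X.b) (TT X i.1 o) (X.a i.1 + o) (X.rep (X.pt s j p)) ↔
      Conn (sa X.a) (sa X.b) (TT X i.1 o) (X.a i.1 + o) (X.cp s j.1 p)) := by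
    intro s j p hp
    have hmj : p ≤ X.m j.1 := by
      have := j.2.1
      omega
    have h1 : Conn (sa X.a) (sa X.b) (TT X i.1 o) (X.rep (X.pt s j p)) (X.cp s j.1 p) :=
      conn_of_eqv X hol (rep_cls X (le_L X s j.1 hmj))
    exact ⟨fun h => h.trans h1, fun h => h.trans h1.symm⟩
  have hmem : X.pt true i o ∈ {v : X.V |
      Conn (sa X.a) (sa X.b) (TT X i.1 o) (X.a i.1 + o) (X.rep v)} := by
    refine Conn.mem_of_closed ?_ ?_ hcon
    · exact (key false i o hol).2 (Conn.refl _)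
    · rintro ⟨j, p⟩ ⟨⟨h1, h2⟩, h3⟩
      simp only at h1 h2
      have hmj : p ≤ X.m j.1 := by
        have := j.2.1
        omega
      have hT : (j.1, p) ∈ TT X i.1 o := by
        refine ⟨⟨j.2.2.trans h1, hmj⟩, ?_⟩
        intro h
        have h4 : (j.1, p) = (i.1, o) := h
        apply h3
        have h5 : j = i := Subtype.ext (congrArg Prod.fst h4)
        have h6 : p = o := congrArg Prod.snd h4
        rw [h5, h6]
        rfl
      show Conn (sa X.a) (sa X.b) (TT X i.1 o) (X.a i.1 + o) (X.rep (X.pt false j p)) ↔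
        Conn (sa X.a) (sa X.b) (TT X i.1 o) (X.a i.1 + o) (X.rep (X.pt true j p))
      rw [key false j p h2, key true j p h2]
      exact ⟨fun h => h.trans (Conn.edge hT), fun h => h.trans (Conn.edge' hT)⟩
  have hfin := (key true i o hol).1 hmem
  exact X.forest i.1 o (hti.2.trans hro) hmi hfin

end H724.WE.DForest
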