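import Pool.Agent.H724.WE.WStm

/-!
# Project WE (helper724), WD7 and WD8: degree bound and marker bound
-/

set_option autoImplicit false

namespace Pool.Agent.H935.WE

open Finset H724.WE
open scoped Classical

/-- connected cut points have the same letters before them -/
theorem window {α : Type} (X : Dat α) {x y : ℕ} (h : X.eqv x y) :
    y = x ∨ (X.l ≤ x ∧ X.l ≤ y ∧ ∀ z < X.l, X.W (x - X.l + z) = X.W (y - X.l + z)) := by
  have key : ∀ e ∈ X.El, ∀ z < X.l, X.l ≤ sa X.a e ∧ X.l ≤ sa X.b e ∧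
      X.W (sa X.a e - X.l + z) = X.W (sa X.b e - X.l + z) := by
    rintro ⟨j, p⟩ ⟨h1, h2⟩ z hz
    simp only at h1 h2
    simp only [sa]
    refine ⟨by omega, by omega, ?_⟩
    have e1 : X.a j + p - X.l + z = X.a j + (p - X.l + z) := by omega
    have e2 : X.b j + p - X.l + z = X.b j + (p - X.l + z) := by omega
    rw [e1, e2]
    exact X.band j _ (by omega)
  have key0 : ∀ e ∈ X.El, X.l ≤ sa X.a e ∧ X.l ≤ sa X.b e := by
    rintro ⟨j, p⟩ ⟨h1, h2⟩
    simp only at h1 h2
    simp only [sa]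
    omega
  have : y ∈ {y | y = x ∨ (X.l ≤ x ∧ X.l ≤ y ∧
      ∀ z < X.l, X.W (x - X.l + z) = X.W (y - X.l + z))} := by
    refine Conn.mem_of_closed (S := X.El) (Or.inl rfl) ?_ h
    intro e he
    constructor
    · rintro (h1 | ⟨h1, h2, h3⟩)
      · right
        rw [← h1]
        exact ⟨(key0 e he).1, (key0 e he).2, fun z hz => (key e he z hz).2.2⟩
      · right
        exact ⟨h1, (key0 e he).2, fun z hz => (h3 z hz).trans (key e he z hz).2.2⟩
    · rintro (h1 | ⟨h1, h2, h3⟩)
      · right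
        rw [← h1]
        exact ⟨(key0 e he).2, (key0 e he).1, fun z hz => (key e he z hz).2.2.symm⟩
      · right
        exact ⟨h1, (key0 e he).1, fun z hz => (h3 z hz).trans (key e he z hz).2.2.symm⟩
  exact this

theorem cp_le {α : Type} (X : Dat α) (s : Bool) (i : X.ι) {o : ℕ} (ho : o ≤ X.m i.1) :
    X.cp s i.1 o ≤ X.L := by
  unfold Dat.cp
  have h1 := X.S_le _ (X.am_mem i.1)
  have h2 := X.S_le _ (X.bm_mem i.1)
  split_ifs <;> omega

/-- **WD7** -/
theorem dDeg : S_dDeg := by
  intro hP α X N hN s i v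
  have hN1 : 1 ≤ N := by
    rcases Nat.eq_zero_or_pos N with rfl | h
    · exact absurd (fun x hx => absurd hx (by omega)) (hN 0 1 one_pos (by omega))
    · exact h
  set P' := (Finset.Ico X.r X.l).filter (fun o => X.pt s i o = v) with hP'
  by_cases hc : P'.card ≤ 1
  · exact hc.trans hN1
  have hi : 2 * X.l ≤ X.m i.1 := i.2.1
  have hrl := X.r_lt
  have hmem : ∀ o ∈ P', X.r ≤ o ∧ o < X.l ∧ X.pt s i o = v := by
    intro o ho
    rw [hP', Finset.mem_filter, Finset.mem_Ico] at ho
    exact ⟨ho.1.1, ho.1.2, ho.2⟩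
  have hle : ∀ o ∈ P', X.cp s i.1 o ≤ X.L := fun o ho => cp_le X s i (by
    have := (hmem o ho).2.1
    omega)
  have heqv : ∀ o ∈ P', ∀ o' ∈ P', X.eqv (X.cp s i.1 o) (X.cp s i.1 o') := by
    intro o ho o' ho'
    have h1 : X.pt s i o = X.pt s i o' := (hmem o ho).2.2.trans (hmem o' ho').2.2.symm
    have h2 := Quotient.exact h1
    have h3 : X.eqv (min (X.cp s i.1 o) X.L) (min (X.cp s i.1 o') X.L) := h2
    rwa [min_eq_left (hle o ho), min_eq_left (hle o' ho')] at h3
  have hinj : ∀ o o' : ℕ, X.cp s i.1 o = X.cp s i.1 o' → o = o' := by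
    intro o o' h
    unfold Dat.cp at h
    split_ifs at h <;> omega
  have hl : ∀ o ∈ P', X.l ≤ X.cp s i.1 o := by
    intro o ho
    obtain ⟨o', ho', hne⟩ : ∃ o' ∈ P', o' ≠ o := by
      by_contra hcon
      push Not at hcon
      apply hc
      rw [Finset.card_le_one]
      intro a ha b hb
      rw [hcon a ha, hcon b hb]
    rcases window X (heqv o ho o' ho') with h1 | ⟨h1, -, -⟩
    · exact absurd (hinj _ _ h1) hne
    · exact h1
  have hcard : (P'.image (fun o => X.cp s i.1 o - X.l)).card = P'.card := by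
    apply Finset.card_image_of_injOn
    intro o ho o' ho' h
    simp only at h
    have h1 := hl o ho
    have h2 := hl o' ho'
    exact hinj _ _ (by omega)
  rw [← hcard]
  refine hP α X.W X.L N X.l _ (X.cp s i.1 X.r - X.l) hN (by omega) ?_ ?_
  · intro p hp
    rw [Finset.mem_image] at hp
    obtain ⟨o, ho, rfl⟩ := hp
    have h1 := hmem o ho
    have h2 := hl o ho
    have h3 := hle o ho
    have h4 : X.cp s i.1 X.r ≤ X.cp s i.1 o ∧ X.cp s i.1 o < X.cp s i.1 X.r + X.l := by
      unfold Dat.cp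
      split_ifs <;> omega
    have h5 : X.cp s i.1 o < X.cp s i.1 X.r + X.l - X.r := by
      unfold Dat.cp
      split_ifs <;> omega
    omega
  · intro p hp p' hp' x hx
    rw [Finset.mem_image] at hp hp'
    obtain ⟨o, ho, rfl⟩ := hp
    obtain ⟨o', ho', rfl⟩ := hp'
    rcases window X (heqv o ho o' ho') with h1 | ⟨-, -, h1⟩
    · rw [h1]
    · exact h1 x hx

/-- **WD8** -/
theorem dMark : S_dMark := by
  intro hP α X N hN
  have hrl := X.r_lt
  set f : X.ι × Fin X.n → Finset (X.ι × ℕ) := fun p =>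
    ((Finset.Ico X.r X.l).filter
      (fun k => ∀ x < X.l, X.W (X.a p.1.1 + k + x) = X.W (X.a p.2 + X.r + x))).image
      (fun k => (p.1, k)) with hf
  have hsub : X.Mk ⊆ (univ : Finset (X.ι × Fin X.n)).biUnion f := by
    rintro ⟨i, k⟩ he
    unfold Dat.Mk at he
    rw [Finset.mem_filter, Finset.mem_product] at he
    obtain ⟨⟨-, hk⟩, i0, -, h⟩ := he
    rw [Finset.mem_biUnion]
    refine ⟨(i, i0), Finset.mem_univ _, ?_⟩
    simp only [hf]
    rw [Finset.mem_image]
    exact ⟨k, Finset.mem_filter.2 ⟨hk, h⟩, rfl⟩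
  have hcard : ∀ p ∈ (univ : Finset (X.ι × Fin X.n)), (f p).card ≤ N := by
    rintro ⟨i, i0⟩ -
    simp only [hf]
    refine Finset.card_image_le.trans ?_
    have hi : 2 * X.l ≤ X.m i.1 := i.2.1
    have hS := X.S_le _ (X.am_mem i.1)
    set Q := (Finset.Ico X.r X.l).filter
      (fun k => ∀ x < X.l, X.W (X.a i.1 + k + x) = X.W (X.a i0 + X.r + x)) with hQ
    have h1 : (Q.image (fun k => X.a i.1 + k)).card = Q.card :=
      Finset.card_image_of_injective _ (add_right_injective _)
    rw [← h1]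
    refine hP α X.W X.L N X.l _ (X.a i.1 + X.r) hN (by omega) ?_ ?_
    · intro p hp
      rw [Finset.mem_image] at hp
      obtain ⟨k, hk, rfl⟩ := hp
      rw [hQ, Finset.mem_filter, Finset.mem_Ico] at hk
      omega
    · intro p hp p' hp' x hx
      rw [Finset.mem_image] at hp hp'
      obtain ⟨k, hk, rfl⟩ := hp
      obtain ⟨k', hk', rfl⟩ := hp'
      rw [hQ, Finset.mem_filter] at hk hk'
      rw [hk.2 x hx, hk'.2 x hx]
  have h1 : Fintype.card X.ι ≤ X.n := by
    have h2 : Function.Injective (fun i : X.ι => i.1) := Subtype.val_injective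
    have := Fintype.card_le_of_injective _ h2
    rwa [Fintype.card_fin] at this
  calc X.Mk.card ≤ ((univ : Finset (X.ι × Fin X.n)).biUnion f).card := Finset.card_le_card hsub
    _ ≤ (univ : Finset (X.ι × Fin X.n)).card * N := Finset.card_biUnion_le_card_mul _ _ _ hcard
    _ = Fintype.card X.ι * X.n * N := by
        rw [Finset.card_univ, Fintype.card_prod, Fintype.card_fin]
    _ ≤ X.n * X.n * N := Nat.mul_le_mul_right _ (Nat.mul_le_mul_right _ h1)

end Pool.Agent.H935.WE
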