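import Pool.Agent.H724.WE.SFStm

namespace H879.WE

open Finset H724.WE
open scoped Classical

theorem depth_of (h2 : S_lightNested) (h3 : S_noLightPair) : S_depth := by
  intro V ι _ _ G hNP x
  have hcard : (((univ : Finset ι) ×ˢ Finset.range (G.Mk.card + 1))).card =
      Fintype.card ι * (G.Mk.card + 1) := by
    rw [Finset.card_product, Finset.card_range, Finset.card_univ]
  rw [← hcard]
  apply Finset.card_le_card_of_injOn (fun d : Dart ι => (d.1, G.sg d.1 d.2.1))
  · intro d _
    simp only [Finset.coe_product, Finset.coe_univ, Set.mem_prod, Set.mem_univ, true_and,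
      Finset.coe_range, Set.mem_Iio]
    exact Nat.lt_succ_of_le (Finset.card_le_card (Finset.filter_subset _ _))
  · intro d hd f hf he
    simp only [Finset.coe_filter, Set.mem_setOf_eq, G.mem_darts] at hd hf
    obtain ⟨hdv, hdl, hdx⟩ := hd
    obtain ⟨hfv, hfl, hfx⟩ := hf
    obtain ⟨i, o, s⟩ := d
    obtain ⟨j, o', t⟩ := f
    simp only [Prod.mk.injEq] at he
    obtain ⟨rfl, hsg⟩ := he
    by_cases hoo : o = o'
    · subst hoo
      rcases eq_or_eq_rev (d := (i, o, s)) (f := (i, o, t)) rfl with h | h
      · exact h.symm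
      · exfalso
        rw [h] at hfx
        exact G.far_rev_disjoint hdv hdx hfx
    · exfalso
      have hne : ed ((i, o, s) : Dart ι) ≠ ed ((i, o', t) : Dart ι) := by
        intro h
        exact hoo (congrArg (fun e : ι × ℕ => e.2) h)
      obtain ⟨-, h4, h5⟩ := h3 V ι G hNP i o o' s t hdv hfv hdl hfl hoo hsg
      rcases h2 V ι G hNP _ _ x hdv hfv hne hdl hfl hdx hfx with h6 | h6
      · exact h4 h6
      · exact h5 h6

end H879.WE
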