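import Pool.Agent.H724.WE.EqStm

/-!
Project WE (helper724), WE-22: powers in `σ U` come from powers in a variable.
-/

set_option autoImplicit false

namespace Pool.Agent.H980.WE

open H724.WE

lemma pow_factor {A : Type} (a0 : A) (s : List A) (g : ℕ) :
    ∀ (N p : ℕ), p + N * g ≤ s.length →
      (∀ x, x + g < N * g → s.getD (p + x) a0 = s.getD (p + x + g) a0) →
      (List.replicate N ((s.drop p).take g)).flatten = (s.drop p).take (N * g) := by
  intro N
  induction N with
  | zero => intro p _ _; simp
  | succ N ih =>
    intro p hp hper
    have e : (N + 1) * g = g + N * g := by ring
    rw [List.replicate_succ, List.flatten_cons, e, List.take_add, List.drop_drop]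
    congr 1
    rcases Nat.eq_zero_or_pos N with h0 | h0
    · subst h0
      simp
    · rw [← ih (p + g) (by rw [e] at hp; omega) (fun x hx => by
        have := hper (x + g) (by rw [e]; omega)
        have e1 : p + (x + g) = p + g + x := by ring
        rw [e1] at this
        exact this)]
      have hNg : g ≤ N * g := Nat.le_mul_of_pos_left g h0
      have hw : (s.drop p).take g = (s.drop (p + g)).take g := by
        apply List.ext_getElem
        · simp only [List.length_take, List.length_drop]
          rw [e] at hp
          omega
        · intro i h1 h2
          simp only [List.getElem_take, List.getElem_drop]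
          have h3 : i < g := by
            simp only [List.length_take, List.length_drop] at h1
            omega
          have h4 := hper i (by rw [e]; omega)
          rw [e] at hp
          rw [List.getD_eq_getElem _ _ (by omega), List.getD_eq_getElem _ _ (by omega)] at h4
          have e2 : p + i + g = p + g + i := by ring
          simp only [e2] at h4
          exact h4
      rw [hw]

lemma key {A Ω : Type} (a0 : A) (σ : Ω → List A) (N g : ℕ) (hN : 1 ≤ N) (hg : 0 < g) :
    ∀ (U : List (A ⊕ Ω)),
      (∀ X, Sum.inr X ∈ U → ∀ w : List A, w ≠ [] → ¬ (List.replicate N w).flatten <:+: σ X) →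
      ∀ p k, p + k ≤ (subst σ U).length →
        (∀ x, x + g < k → (subst σ U).getD (p + x) a0 = (subst σ U).getD (p + x + g) a0) →
        k ≤ U.length * (N * g) := by
  intro U
  induction U with
  | nil =>
    intro _ p k h _
    simp [subst] at h
    omega
  | cons s U ih =>
    intro hU p k hk hper
    have hpos : 1 ≤ N * g := Nat.one_le_iff_ne_zero.2 (by positivity)
    obtain ⟨t, ht⟩ : ∃ t, t = Sum.elim (fun a => [a]) σ s := ⟨_, rfl⟩
    have hsub : subst σ (s :: U) = t ++ subst σ U := by
      rw [ht]
      unfold subst
      rw [List.flatMap_cons]
    -- overlap with the first factor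
    have h1 : ∀ p k, p + k ≤ t.length →
        (∀ x, x + g < k → t.getD (p + x) a0 = t.getD (p + x + g) a0) → k ≤ N * g := by
      intro p k hk1 hper1
      rcases s with a | X
      · rw [ht] at hk1
        simp at hk1
        omega
      · by_contra hc
        push Not at hc
        have ht' : t = σ X := ht
        have h2 := pow_factor a0 t g N p (by omega) (fun x hx => hper1 x (by omega))
        refine hU X (List.mem_cons_self) ((t.drop p).take g) ?_ ?_
        · intro h0
          have := congrArg List.length h0
          simp only [List.length_take, List.length_drop, List.length_nil] at this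
          have hNg : g ≤ N * g := Nat.le_mul_of_pos_left g hN
          omega
        · rw [h2, ← ht']
          exact (List.take_prefix _ _).isInfix.trans (List.drop_suffix _ _).isInfix
    have hU' : ∀ X, Sum.inr X ∈ U → ∀ w : List A, w ≠ [] →
        ¬ (List.replicate N w).flatten <:+: σ X := fun X hX => hU X (List.mem_cons_of_mem _ hX)
    have e : (s :: U).length * (N * g) = U.length * (N * g) + N * g := by
      rw [List.length_cons]
      ring
    rw [e]
    rw [hsub] at hk hper
    rw [List.length_append] at hk
    rcases le_or_gt (p + k) t.length with h2 | h2
    · have := h1 p k h2 (fun x hx => by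
        have h3 := hper x hx
        rwa [List.getD_append _ _ _ _ (by omega), List.getD_append _ _ _ _ (by omega)] at h3)
      omega
    rcases le_or_gt t.length p with h3 | h3
    · have := ih hU' (p - t.length) k (by omega) (fun x hx => by
        have h4 := hper x hx
        rw [List.getD_append_right _ _ _ _ (by omega),
          List.getD_append_right _ _ _ _ (by omega)] at h4
        have e1 : p + x - t.length = p - t.length + x := by omega
        have e2 : p + x + g - t.length = p - t.length + x + g := by omega
        rwa [e1, e2] at h4)
      omega
    · have h4 := h1 p (t.length - p) (by omega) (fun x hx => by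
        have h3 := hper x (by omega)
        rwa [List.getD_append _ _ _ _ (by omega), List.getD_append _ _ _ _ (by omega)] at h3)
      have h5 := ih hU' 0 (k - (t.length - p)) (by omega) (fun x hx => by
        have h4 := hper (x + (t.length - p)) (by omega)
        rw [List.getD_append_right _ _ _ _ (by omega),
          List.getD_append_right _ _ _ _ (by omega)] at h4
        have e1 : p + (x + (t.length - p)) - t.length = 0 + x := by omega
        have e2 : p + (x + (t.length - p)) + g - t.length = 0 + x + g := by omega
        rwa [e1, e2] at h4)
      omega

theorem eqPow : H724.WE.S_eqPow := by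
  intro A Ω a0 U σ N hN hU p g hg hp hper
  have h := key a0 σ N g hN hg U hU p ((U.length * N + 1) * g) hp (fun x hx => hper x hx)
  have e : (U.length * N + 1) * g = U.length * (N * g) + g := by ring
  omega

end Pool.Agent.H980.WE
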