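import Pool.Agent.H724.WE.SFStm

/-! Project WE (helper724), pieces AB1, AB2 (helper51). -/

namespace H51.WE

open H724.WE Finset
open scoped Classical

theorem free : S_free := by
  intro V ι G hNP v
  by_contra hcon
  push Not at hcon
  refine hNP (fun x => if G.C G.E v x then 1 else 0) ⟨⟨v, ?_⟩, ?_, Or.inl ?_⟩
  · show (if G.C G.E v v then 1 else 0) ≠ 0
    rw [if_pos (show G.C G.E v v from Conn.refl v)]
    exact one_ne_zero
  · intro z hz
    show (if G.C G.E v z then 1 else 0) = 0
    rw [if_neg (hcon z hz)]
  · intro i o h1 h2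
    have he : ((i, o) : ι × ℕ) ∈ G.E := ⟨h1, h2⟩
    have hc : G.C G.E (G.pt false i o) (G.pt true i o) := Conn.edge (e := (i, o)) he
    show (if G.C G.E v (G.pt false i o) then 1 else 0) =
      (if G.C G.E v (G.pt true i o) then 1 else 0)
    by_cases h : G.C G.E v (G.pt false i o)
    · rw [if_pos h, if_pos (show G.C G.E v (G.pt true i o) from Conn.trans h hc)]
    · rw [if_neg h, if_neg (show ¬ G.C G.E v (G.pt true i o) from
        fun h' => h (Conn.trans h' (Conn.symm hc)))]

theorem lightNested : S_lightNested := by
  intro V ι G hNP d f x hd hf hne hld hlf hxd hxf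
  by_cases h1 : G.tl f ∈ G.far d
  · have h1' : G.hd f ∈ G.far d := G.far_closed hf (Ne.symm hne) h1
    by_cases h2 : G.hd d ∈ G.far f
    · exfalso
      have h3 : G.tl d ∈ G.far f := (G.far_closed_iff hd hne).2 h2
      obtain ⟨z, hz, hcz⟩ := free V ι G hNP (G.hd d)
      have hmem : z ∈ G.far d ∪ G.far f := by
        refine Conn.mem_of_closed (Or.inl (G.hd_mem_far d)) ?_ hcz
        intro e he
        have key : ∀ g : Dart ι, ed g = e → (G.tl g ∈ G.far d ∪ G.far f ↔
            G.hd g ∈ G.far d ∪ G.far f) := by
          rintro g rfl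
          have hgv : G.val g := he
          by_cases hgd : ed g = ed d
          · rcases eq_or_eq_rev hgd.symm with rfl | rfl
            · exact ⟨fun _ => Or.inl (G.hd_mem_far g), fun _ => Or.inr h3⟩
            · refine ⟨fun _ => Or.inr ?_, fun _ => Or.inl ?_⟩
              · simpa using h3
              · simpa using G.hd_mem_far d
          · by_cases hgf : ed g = ed f
            · rcases eq_or_eq_rev hgf.symm with rfl | rfl
              · exact ⟨fun _ => Or.inr (G.hd_mem_far g), fun _ => Or.inl h1⟩
              · refine ⟨fun _ => Or.inl ?_, fun _ => Or.inr ?_⟩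
                · simpa using h1
                · simpa using G.hd_mem_far f
            · simp only [Set.mem_union]
              rw [G.far_closed_iff hgv hgd, G.far_closed_iff hgv hgf]
        exact key (e.1, e.2, true) rfl
      rcases hmem with h | h
      · exact hld z h hz
      · exact hlf z h hz
    · exact Or.inl ⟨h1, h2⟩
  · have h1' : G.hd f ∉ G.far d := fun h => h1 ((G.far_closed_iff hf (Ne.symm hne)).2 h)
    right
    have h4 := G.far_avoid h1' h1 hxd
    have h5 : G.C (G.E \ {ed f}) (G.hd d) x := by
      refine Conn.mono ?_ h4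
      rintro e ⟨⟨he, _⟩, he2⟩
      exact ⟨he, he2⟩
    have h6 : G.hd d ∈ G.far f := Conn.trans hxf (Conn.symm h5)
    exact ⟨(G.far_closed_iff hd hne).2 h6, h1'⟩

end H51.WE
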