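import Pool.Agent.H724.WE.WStm

/-!
Project WE (helper724): `S_scale` and `S_power`.
-/

set_option autoImplicit false

namespace Pool.Agent.H94.WE

open H724.WE

theorem scale : H724.WE.S_scale := by
  intro κ _ f ρ hρ
  by_contra hcon
  push Not at hcon
  have h1 : ∀ k : Fin (Fintype.card κ + 1), ∃ x, ρ ^ (k : ℕ) ≤ f x ∧ f x < ρ ^ ((k : ℕ) + 1) :=
    fun k => hcon k (Nat.lt_succ_iff.1 k.2)
  choose g hg using h1
  have hinj : Function.Injective g := by
    have key : ∀ k k' : Fin (Fintype.card κ + 1), k < k' → g k ≠ g k' := by
      intro k k' hk h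
      have e1 := (hg k).2
      have e2 := (hg k').1
      rw [← h] at e2
      have e3 : ρ ^ ((k : ℕ) + 1) ≤ ρ ^ (k' : ℕ) := Nat.pow_le_pow_right hρ hk
      omega
    intro k k' h
    rcases lt_trichotomy k k' with h1 | h1 | h1
    · exact absurd h (key _ _ h1)
    · exact h1
    · exact absurd h.symm (key _ _ h1)
  have := Fintype.card_le_of_injective g hinj
  rw [Fintype.card_fin] at this
  omega

theorem power : H724.WE.S_power := by
  intro α W L N t P p0 hN ht hP hW
  by_contra hcon
  push Not at hcon
  rcases Nat.eq_zero_or_pos N with h0 | h0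
  · subst h0
    refine hN 0 1 one_pos (by omega) ?_
    intro x hx
    omega
  · have hc : (Finset.range N).card < P.card := by rwa [Finset.card_range]
    obtain ⟨p, hp, q, hq, hne, he⟩ := Finset.exists_ne_map_eq_of_card_lt_of_maps_to hc
      (f := fun p => (p - p0) * N / t) (by
        intro p hp
        obtain ⟨h1, h2, h3⟩ := hP p hp
        rw [Finset.mem_coe, Finset.mem_range]
        refine Nat.div_lt_of_lt_mul ?_
        have : p - p0 < t := by omega
        exact Nat.mul_lt_mul_of_pos_right this h0)
    have key : ∀ p ∈ P, ∀ q ∈ P, p < q → (p - p0) * N / t = (q - p0) * N / t → False := by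
      intro p hp q hq hpq he
      obtain ⟨h1, h2, h3⟩ := hP p hp
      obtain ⟨h1', h2', h3'⟩ := hP q hq
      have e1 : (q - p0) * N < ((p - p0) * N / t + 1) * t := by
        rw [he]
        have := Nat.lt_div_mul_add ht (a := (q - p0) * N)
        calc (q - p0) * N < (q - p0) * N / t * t + t := this
          _ = ((q - p0) * N / t + 1) * t := by ring
      have e2 : (p - p0) * N / t * t ≤ (p - p0) * N := Nat.div_mul_le_self _ _
      have e3 : (q - p0) * N < (p - p0) * N + t := by
        calc (q - p0) * N < ((p - p0) * N / t + 1) * t := e1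
          _ = (p - p0) * N / t * t + t := by ring
          _ ≤ (p - p0) * N + t := by omega
      have e4 : q - p0 = (p - p0) + (q - p) := by omega
      rw [e4, add_mul] at e3
      have e5 : N * (q - p) < t := by
        rw [mul_comm]
        omega
      refine hN p (q - p) (by omega) (by omega) ?_
      intro x hx
      have e6 := hW p hp q hq x (by omega)
      rw [e6]
      congr 1
      omega
    rcases lt_or_gt_of_ne hne with h | h
    · exact key p hp q hq h he
    · exact key q hq p hp h he.symm

end Pool.Agent.H94.WE
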